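import Mathlib
import Pool.Agent.H.MP_78fc4b_an.C

namespace Pool.Agent.Results.MP_78fc4b_an.No
open Pool.Agent.H.MP_78fc4b_an

universe u

theorem result : ∃ (X : Type) (_ : NormedAddCommGroup X) (_ : NormedSpace ℝ X) (_ : CompleteSpace X),
    ¬ UC X ∧ ∀ (Z : Type u) [NormedAddCommGroup Z] [NormedSpace ℝ Z] [CompleteSpace Z],
      BPBASE X Z :=
  ⟨XX, inferInstance, inferInstance, FiniteDimensional.complete ℝ XX, not_uc,
    fun Z _ _ _ => univ_dom all_good Z⟩

end Pool.Agent.Results.MP_78fc4b_an.No
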